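import Mathlib
import Pool.Agent.H481Z.CDefs
import Pool.Agent.H481Z.CSq

set_option autoImplicit false

namespace Pool.Agent.Results.MP_8292e8_an.EverySpace

open Pool.Agent.H481Z.CC

/-- Every nonzero separable Banach space `X` over the real or the complex scalars carries a
convex-cyclic bounded operator `S` such that `S ^ 2` is not convex-cyclic. -/
theorem result (𝕜 X : Type*) [RCLike 𝕜] [NormedAddCommGroup X] [NormedSpace 𝕜 X]
    [NormedSpace ℝ X] [IsScalarTower ℝ 𝕜 X] [CompleteSpace X] [TopologicalSpace.SeparableSpace X]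
    [Nontrivial X] :
    ∃ S : X →L[𝕜] X, (convexCyclicVectors S).Nonempty ∧ ¬ (convexCyclicVectors (S ^ 2)).Nonempty :=
  square_example

end Pool.Agent.Results.MP_8292e8_an.EverySpace
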